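import Pool.Agent.Lib_helper59.A1.Stmts

/-!
# Project A1 (MP_859019_mp), block MEL-b: the Mellin transform of `s(y,c)` in `y`
-/

set_option autoImplicit false

open scoped BigOperators ComplexOrder Kronecker MatrixOrder Topology
open MeasureTheory Set Matrix

namespace Pool.Agent.A1W

open Pool.Agent.RC Pool.Agent.A1

/-- the subtracted value at `0` -/
noncomputable def s0 (a : ℝ) {κ : Type} [Fintype κ] [DecidableEq κ] (A D : Matrix κ κ ℂ)
    (c : ℝ) : ℝ := if 1 < a then sy A D 0 c else 0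

theorem mel_int_zero_one {s : ℝ} (hs : -1 < s) : IntegrableOn (fun y : ℝ => y ^ s) (Ioc 0 1) := by
  have := (intervalIntegral.intervalIntegrable_rpow' (a := 0) (b := 1) hs)
  rwa [intervalIntegrable_iff_integrableOn_Ioc_of_le zero_le_one] at this

/-- a function on `(0,∞)` dominated by `y^s` on `(0,1]` and by `y^t` on `(1,∞)` -/
theorem mel_integrable {f : ℝ → ℝ} {s t K : ℝ} (hs : -1 < s) (ht : t < -1)
    (hm : AEStronglyMeasurable f (volume.restrict (Ioi 0)))
    (h1 : ∀ y ∈ Ioc (0 : ℝ) 1, |f y| ≤ K * y ^ s) (h2 : ∀ y ∈ Ioi (1 : ℝ), |f y| ≤ K * y ^ t) :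
    IntegrableOn f (Ioi 0) := by
  have e : Ioi (0 : ℝ) = Ioc 0 1 ∪ Ioi 1 := (Ioc_union_Ioi_eq_Ioi zero_le_one).symm
  rw [e]
  apply IntegrableOn.union
  · refine Integrable.mono' ((mel_int_zero_one hs).const_mul K)
      (hm.mono_measure (Measure.restrict_mono (fun y hy => hy.1) le_rfl)) ?_
    exact (ae_restrict_iff' measurableSet_Ioc).2 (Filter.Eventually.of_forall fun y hy => h1 y hy)
  · refine Integrable.mono' ((integrableOn_Ioi_rpow_of_lt ht zero_lt_one).const_mul K)
      (hm.mono_measure (Measure.restrict_mono (Ioi_subset_Ioi zero_le_one) le_rfl)) ?_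
    exact (ae_restrict_iff' measurableSet_Ioi).2 (Filter.Eventually.of_forall fun y hy => h2 y hy)

/-- the bound of the integral -/
theorem mel_integral_le {f : ℝ → ℝ} {s t K : ℝ} (hs : -1 < s) (ht : t < -1)
    (h : IntegrableOn f (Ioi 0))
    (h1 : ∀ y ∈ Ioc (0 : ℝ) 1, |f y| ≤ K * y ^ s) (h2 : ∀ y ∈ Ioi (1 : ℝ), |f y| ≤ K * y ^ t) :
    |∫ y in Ioi (0 : ℝ), f y| ≤
      K * (∫ y in Ioc (0 : ℝ) 1, y ^ s) + K * ∫ y in Ioi (1 : ℝ), y ^ t := by
  have e : Ioi (0 : ℝ) = Ioc 0 1 ∪ Ioi 1 := (Ioc_union_Ioi_eq_Ioi zero_le_one).symm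
  have ha : IntegrableOn f (Ioc 0 1) := h.mono_set fun y hy => hy.1
  have hb : IntegrableOn f (Ioi 1) := h.mono_set (Ioi_subset_Ioi zero_le_one)
  rw [e, setIntegral_union Ioc_disjoint_Ioi_same measurableSet_Ioi ha hb]
  refine (abs_add_le _ _).trans ?_
  apply add_le_add
  · refine (abs_integral_le_integral_abs).trans ?_
    rw [← integral_const_mul]
    exact setIntegral_mono_on ha.abs ((mel_int_zero_one hs).const_mul K) measurableSet_Ioc h1
  · refine (abs_integral_le_integral_abs).trans ?_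
    rw [← integral_const_mul]
    exact setIntegral_mono_on hb.abs ((integrableOn_Ioi_rpow_of_lt ht zero_lt_one).const_mul K)
      measurableSet_Ioi h2

theorem mel_b (hS : SYBStmt) {a : ℝ} (ha0 : 0 < a) (ha2 : a < 2) (ha1 : a ≠ 1) :
    ∀ (κ : Type) [Fintype κ] [DecidableEq κ] (A D : Matrix κ κ ℂ), SPair A D →
    ∃ S : ℝ → ℝ, IntervalIntegrable S volume (-1) 1 ∧
      (∃ K : ℝ, ∀ c ∈ Icc (-1 : ℝ) 1, |S c| ≤ K) ∧
      ∀ c ∈ Icc (-1 : ℝ) 1, ∀ x : ℝ, 0 < x →
        IntegrableOn (fun e : ℝ => e ^ (-a) * (sy A D (e * x) c - s0 a A D c)) (Ioi 0) ∧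
        ∫ e in Ioi (0 : ℝ), e ^ (-a) * (sy A D (e * x) c - s0 a A D c) =
          x ^ (a - 1) * S c := by
  intro κ _ _ A D h
  obtain ⟨K, hK, hb, hl, hm, hm0⟩ := hS κ A D h
  -- the exponents
  obtain ⟨s, t, C, hs, ht, hC, h1, h2⟩ : ∃ s t C : ℝ, -1 < s ∧ t < -1 ∧ 0 ≤ C ∧
      (∀ c ∈ Icc (-1 : ℝ) 1, ∀ y ∈ Ioc (0 : ℝ) 1,
        |y ^ (-a) * (sy A D y c - s0 a A D c)| ≤ C * y ^ s) ∧
      (∀ c ∈ Icc (-1 : ℝ) 1, ∀ y ∈ Ioi (1 : ℝ),
        |y ^ (-a) * (sy A D y c - s0 a A D c)| ≤ C * y ^ t) := by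
    rcases lt_or_gt_of_ne ha1 with hlt | hgt
    · refine ⟨-a, -a - 1, K, by linarith, by linarith, hK, ?_, ?_⟩
      · intro c hc y hy
        have hy0 : 0 < y := hy.1
        have e0 : s0 a A D c = 0 := by unfold s0; rw [if_neg (by linarith)]
        rw [e0, sub_zero, abs_mul, abs_of_pos (Real.rpow_pos_of_pos hy0 _), mul_comm]
        apply mul_le_mul_of_nonneg_right _ (Real.rpow_pos_of_pos hy0 _).le
        refine (hb c hc y hy0.le).trans ?_
        exact div_le_self hK (by linarith)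
      · intro c hc y hy
        have hy1 : 1 < y := hy
        have hy0 : 0 < y := by linarith
        have e0 : s0 a A D c = 0 := by unfold s0; rw [if_neg (by linarith)]
        rw [e0, sub_zero, abs_mul, abs_of_pos (Real.rpow_pos_of_pos hy0 _)]
        have e1 : K * y ^ (-a - 1) = y ^ (-a) * (K / y) := by
          rw [Real.rpow_sub_one hy0.ne']; ring
        rw [e1]
        apply mul_le_mul_of_nonneg_left _ (Real.rpow_pos_of_pos hy0 _).le
        refine (hb c hc y hy0.le).trans ?_
        exact div_le_div_of_nonneg_left hK hy0 (by linarith)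
    · refine ⟨1 - a, -a, 2 * K, by linarith, by linarith, by linarith, ?_, ?_⟩
      · intro c hc y hy
        have hy0 : 0 < y := hy.1
        have e0 : s0 a A D c = sy A D 0 c := by unfold s0; rw [if_pos hgt]
        rw [e0, abs_mul, abs_of_pos (Real.rpow_pos_of_pos hy0 _)]
        have e1 : 2 * K * y ^ (1 - a) = y ^ (-a) * (2 * K * y) := by
          rw [show 1 - a = -a + 1 by ring, Real.rpow_add_one hy0.ne']; ring
        rw [e1]
        apply mul_le_mul_of_nonneg_left _ (Real.rpow_pos_of_pos hy0 _).le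
        have h3 := hl c hc y 0 hy0.le le_rfl
        rw [sub_zero, abs_of_pos hy0] at h3
        nlinarith [mul_nonneg hK hy0.le]
      · intro c hc y hy
        have hy1 : 1 < y := hy
        have hy0 : 0 < y := by linarith
        have e0 : s0 a A D c = sy A D 0 c := by unfold s0; rw [if_pos hgt]
        rw [e0, abs_mul, abs_of_pos (Real.rpow_pos_of_pos hy0 _), mul_comm]
        apply mul_le_mul_of_nonneg_right _ (Real.rpow_pos_of_pos hy0 _).le
        have h3 := hb c hc y hy0.le
        have h4 := hb c hc 0 le_rfl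
        have h5 : K / (1 + y) ≤ K := div_le_self hK (by linarith)
        have h6 : K / (1 + 0) = K := by simp
        have h7 := abs_sub (sy A D y c) (sy A D 0 c)
        linarith
  -- measurability in y for fixed c
  have hmy : ∀ c ∈ Icc (-1 : ℝ) 1, AEStronglyMeasurable
      (fun y : ℝ => y ^ (-a) * (sy A D y c - s0 a A D c)) (volume.restrict (Ioi 0)) := by
    intro c hc
    have hcont : ContinuousOn (fun y : ℝ => sy A D y c) (Ioi 0) := by
      have : LipschitzOnWith (Real.toNNReal K) (fun y : ℝ => sy A D y c) (Ioi 0) := by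
        apply LipschitzOnWith.of_dist_le_mul
        intro y hy y' hy'
        rw [Real.dist_eq, Real.dist_eq, Real.coe_toNNReal K hK]
        exact hl c hc y y' (le_of_lt hy) (le_of_lt hy')
      exact this.continuousOn
    have h3 : AEStronglyMeasurable (fun y : ℝ => sy A D y c) (volume.restrict (Ioi 0)) :=
      hcont.aestronglyMeasurable measurableSet_Ioi
    have h4 : Measurable (fun y : ℝ => y ^ (-a)) := by fun_prop
    exact h4.aestronglyMeasurable.mul (h3.sub aestronglyMeasurable_const)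
  have hint : ∀ c ∈ Icc (-1 : ℝ) 1,
      IntegrableOn (fun y : ℝ => y ^ (-a) * (sy A D y c - s0 a A D c)) (Ioi 0) :=
    fun c hc => mel_integrable hs ht (hmy c hc) (h1 c hc) (h2 c hc)
  set S : ℝ → ℝ := fun c => ∫ y in Ioi (0 : ℝ), y ^ (-a) * (sy A D y c - s0 a A D c) with hSdef
  have hSb : ∀ c ∈ Icc (-1 : ℝ) 1, |S c| ≤
      C * (∫ y in Ioc (0 : ℝ) 1, y ^ s) + C * ∫ y in Ioi (1 : ℝ), y ^ t :=
    fun c hc => mel_integral_le hs ht (hint c hc) (h1 c hc) (h2 c hc)
  -- measurability in c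
  have hSm : AEStronglyMeasurable S (volume.restrict (Icc (-1) 1)) := by
    have h3 : AEStronglyMeasurable
        (fun x : ℝ × ℝ => x.2 ^ (-a) * (sy A D x.2 x.1 - s0 a A D x.1))
        ((volume.restrict (Icc (-1) 1)).prod (volume.restrict (Ioi 0))) := by
      have h4 : Measurable (fun x : ℝ × ℝ => x.2 ^ (-a)) := by fun_prop
      refine h4.aestronglyMeasurable.mul (hm.sub ?_)
      have h5 : AEStronglyMeasurable (fun c : ℝ => s0 a A D c) (volume.restrict (Icc (-1) 1)) := by
        unfold s0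
        by_cases h6 : 1 < a
        · simpa only [if_pos h6] using hm0
        · simp only [if_neg h6]
          exact aestronglyMeasurable_const
      exact h5.comp_fst
    exact h3.integral_prod_right'
  refine ⟨S, ?_, ⟨_, hSb⟩, ?_⟩
  · rw [intervalIntegrable_iff_integrableOn_Ioc_of_le (by norm_num)]
    have h3 : IntegrableOn S (Icc (-1) 1) := by
      refine Integrable.mono' (integrable_const
        (C * (∫ y in Ioc (0 : ℝ) 1, y ^ s) + C * ∫ y in Ioi (1 : ℝ), y ^ t)) hSm ?_
      exact (ae_restrict_iff' measurableSet_Icc).2 (Filter.Eventually.of_forall fun c hc => hSb c hc)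
    exact h3.mono_set Ioc_subset_Icc_self
  · intro c hc x hx
    set g : ℝ → ℝ := fun y => y ^ (-a) * (sy A D y c - s0 a A D c) with hg
    have e1 : ∀ e ∈ Ioi (0 : ℝ), e ^ (-a) * (sy A D (e * x) c - s0 a A D c) =
        x ^ a * g (e * x) := by
      intro e he
      have he0 : (0 : ℝ) < e := he
      rw [hg]
      simp only
      rw [Real.mul_rpow he0.le hx.le]
      have e2 : x ^ a * x ^ (-a) = 1 := by rw [← Real.rpow_add hx]; simp
      calc e ^ (-a) * (sy A D (e * x) c - s0 a A D c)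
          = (x ^ a * x ^ (-a)) * (e ^ (-a) * (sy A D (e * x) c - s0 a A D c)) := by rw [e2, one_mul]
        _ = _ := by ring
    have h3 : IntegrableOn (fun e => g (e * x)) (Ioi 0) := by
      rw [integrableOn_Ioi_comp_mul_right_iff g 0 hx, zero_mul]
      exact hint c hc
    constructor
    · have h4 : IntegrableOn (fun e => x ^ a * g (e * x)) (Ioi 0) := h3.const_mul (x ^ a)
      exact h4.congr_fun (fun e he => (e1 e he).symm) measurableSet_Ioi
    · rw [setIntegral_congr_fun measurableSet_Ioi e1, integral_const_mul,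
        integral_comp_mul_right_Ioi g 0 hx, zero_mul, smul_eq_mul, Real.rpow_sub_one hx.ne']
      rw [hSdef]
      simp only [hg]
      ring

end Pool.Agent.A1W
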