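import Pool.Agent.Lib_helper59.A1.Defs
import Pool.Agent.Lib_helper50.A1.Ub

/-!
# Project A1 (MP_859019_mp), block SYB: bounds and measurability of `s(y,c)`
-/

set_option autoImplicit false
set_option linter.unusedSectionVars false

open scoped BigOperators ComplexOrder Kronecker MatrixOrder Topology
open MeasureTheory Set Matrix

namespace Pool.Agent.A1W

open Pool.Agent.RC Pool.Agent.A1 Pool.Agent.Lib_helper96.A1

variable {κ : Type} [Fintype κ] [DecidableEq κ]

/-- the letter `1 + y R + i w W` is a `Zm` -/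
theorem syb_Zm (R D : Matrix κ κ ℂ) (y c w : ℝ) :
    (1 + (y : ℂ) • R + (Complex.I * w) • Wc R D c) =
      Zm (1 + (y : ℂ) • R) (Wc R D c) w := by
  unfold Zm
  rw [mul_comm]

/-- the integrand of `sy` -/
noncomputable def syf (R D : Matrix κ κ ℂ) (y c w : ℝ) : ℝ :=
  -(1 / w) * ((R * (Zm (1 + (y : ℂ) • R) (Wc R D c) w)⁻¹).trace).im

theorem sy_eq (R D : Matrix κ κ ℂ) (y c : ℝ) :
    sy R D y c = (2 / Real.pi) * ∫ w in Ioi (0 : ℝ), syf R D y c w := by
  unfold sy syf
  simp only [syb_Zm]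

theorem syf_eq (R D : Matrix κ κ ℂ) (y c w : ℝ) :
    syf R D y c w = -(((R * (Zm (1 + (y : ℂ) • R) (Wc R D c) w)⁻¹).trace).im / w) := by
  unfold syf
  ring

section
variable {A D : Matrix κ κ ℂ}

theorem syb_lower (h : SPair A D) : ∃ δ : ℝ, 0 < δ ∧ ∀ y : ℝ, 0 ≤ y →
    ((1 + (y : ℂ) • A) - ((δ * (1 + y) : ℝ) : ℂ) • (1 : Matrix κ κ ℂ)).PosSemidef := by
  obtain ⟨δ, hδ, hA⟩ := exists_lower h.posDef
  refine ⟨min 1 δ, lt_min one_pos hδ, fun y hy => ?_⟩
  have e : (1 + (y : ℂ) • A) - ((min 1 δ * (1 + y) : ℝ) : ℂ) • (1 : Matrix κ κ ℂ) =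
      y • (A - (δ : ℂ) • (1 : Matrix κ κ ℂ)) +
        (1 - min 1 δ + y * (δ - min 1 δ)) • (1 : Matrix κ κ ℂ) := by
    ext i j
    simp
    ring
  rw [e]
  have h1 : 0 ≤ 1 - min 1 δ := sub_nonneg.2 (min_le_left _ _)
  have h2 : 0 ≤ δ - min 1 δ := sub_nonneg.2 (min_le_right _ _)
  exact (hA.smul hy).add (Matrix.PosSemidef.one.smul (by positivity))

theorem syb_posDef (h : SPair A D) {y : ℝ} (hy : 0 ≤ y) : (1 + (y : ℂ) • A).PosDef := by
  rw [coe_smul_mat]
  exact Matrix.PosDef.one.add_posSemidef (h.posDef.posSemidef.smul hy)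

theorem syb_one_le (h : SPair A D) {y : ℝ} (hy : 0 ≤ y) :
    ((1 + (y : ℂ) • A) - ((1 : ℝ) : ℂ) • (1 : Matrix κ κ ℂ)).PosSemidef := by
  have e : (1 + (y : ℂ) • A) - ((1 : ℝ) : ℂ) • (1 : Matrix κ κ ℂ) = y • A := by
    ext i j
    simp
  rw [e]
  exact h.posDef.posSemidef.smul hy

/-- the bound `K / (1 + y)` -/
theorem syb_bound (h : SPair A D) : ∃ K : ℝ, 0 ≤ K ∧ ∀ c ∈ Icc (-1 : ℝ) 1, ∀ y : ℝ, 0 ≤ y →
    |sy A D y c| ≤ K / (1 + y) := by
  obtain ⟨δ, hδ, hlow⟩ := syb_lower h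
  set T : ℝ := ((Aᴴ * A).trace).re with hT
  have hT0 : 0 ≤ T := by
    have := trace_mul_nonneg (ι := κ) (Matrix.posSemidef_conjTranspose_mul_self A)
      Matrix.PosSemidef.one
    simpa [hT] using this
  refine ⟨Real.sqrt (Fintype.card κ * T) / δ, by positivity, fun c _ y hy => ?_⟩
  have hN := syb_posDef h hy
  obtain ⟨V, W, l, hF⟩ := exists_frame hN (Wc_herm h c)
  rw [sy_eq, abs_mul]
  have hp : |2 / Real.pi| = 2 / Real.pi := abs_of_pos (by positivity)
  rw [hp]
  have h1 : |∫ w in Ioi (0 : ℝ), syf A D y c w| ≤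
      Real.pi / 2 * Real.sqrt ((((1 + (y : ℂ) • A)⁻¹).trace).re *
        ((Aᴴ * A * (1 + (y : ℂ) • A)⁻¹).trace).re) := by
    refine (abs_integral_le_integral_abs).trans ?_
    have h2 := hF.integral_abs_im_le h.posDef.isHermitian
    simpa only [syf_eq] using h2
  have hs : 0 < δ * (1 + y) := by positivity
  have h3 := trace_inv_le hs (hlow y hy)
  have h4 := trace_mul_inv_le hs (hlow y hy) (Matrix.posSemidef_conjTranspose_mul_self A)
  have h5 : 0 ≤ ((Aᴴ * A * (1 + (y : ℂ) • A)⁻¹).trace).re :=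
    trace_mul_nonneg (Matrix.posSemidef_conjTranspose_mul_self A) hN.inv.posSemidef
  have h6 : Real.sqrt ((((1 + (y : ℂ) • A)⁻¹).trace).re *
        ((Aᴴ * A * (1 + (y : ℂ) • A)⁻¹).trace).re) ≤
      Real.sqrt (Fintype.card κ * T) / (δ * (1 + y)) := by
    have h7 : (((1 + (y : ℂ) • A)⁻¹).trace).re * ((Aᴴ * A * (1 + (y : ℂ) • A)⁻¹).trace).re ≤
        ((δ * (1 + y))⁻¹ * Fintype.card κ) * ((δ * (1 + y))⁻¹ * T) :=
      mul_le_mul h3 h4 h5 (by positivity)
    refine (Real.sqrt_le_sqrt h7).trans ?_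
    have e : ((δ * (1 + y))⁻¹ * Fintype.card κ) * ((δ * (1 + y))⁻¹ * T) =
        ((δ * (1 + y))⁻¹) ^ 2 * (Fintype.card κ * T) := by ring
    rw [e, Real.sqrt_mul (by positivity), Real.sqrt_sq (by positivity)]
    apply le_of_eq
    field_simp
  calc 2 / Real.pi * |∫ w in Ioi (0 : ℝ), syf A D y c w|
      ≤ 2 / Real.pi * (Real.pi / 2 * (Real.sqrt (Fintype.card κ * T) / (δ * (1 + y)))) := by
        apply mul_le_mul_of_nonneg_left _ (by positivity)
        exact h1.trans (mul_le_mul_of_nonneg_left h6 (by positivity))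
    _ = Real.sqrt (Fintype.card κ * T) / δ / (1 + y) := by
        have := Real.pi_ne_zero
        field_simp

/-- `z z'` in two frames -/
theorem syb_im_mul (x x' : ℝ) : ((1 + (x : ℂ) * Complex.I)⁻¹ * (1 + (x' : ℂ) * Complex.I)⁻¹).im =
    -((x + x') * ((1 + x ^ 2)⁻¹ * (1 + x' ^ 2)⁻¹)) := by
  rw [Complex.mul_im, Frame.re_inv, Frame.re_inv, Frame.im_inv, Frame.im_inv]
  ring

/-- the double sum for `Tr A Z⁻¹ A Z'⁻¹` -/
theorem syb_trace_two {N J V W N' J' V' W' : Matrix κ κ ℂ} {l l' : κ → ℝ}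
    (hF : Frame N J V W l) (hF' : Frame N' J' V' W' l') (hA : A.IsHermitian) (w : ℝ) :
    (A * (Zm N J w)⁻¹ * (A * (Zm N' J' w)⁻¹)).trace =
      ∑ k, ∑ j, ((‖(Vᴴ * A * V') k j‖ ^ 2 : ℝ) : ℂ) *
        ((1 + ((w * l k : ℝ) : ℂ) * Complex.I)⁻¹ * (1 + ((w * l' j : ℝ) : ℂ) * Complex.I)⁻¹) := by
  rw [hF.invZ w, hF'.invZ w]
  set E := Matrix.diagonal (fun i => (1 + ((w * l i : ℝ) : ℂ) * Complex.I)⁻¹) with hE
  set E' := Matrix.diagonal (fun i => (1 + ((w * l' i : ℝ) : ℂ) * Complex.I)⁻¹) with hE'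
  set m := Vᴴ * A * V' with hm
  have hmH : mᴴ = V'ᴴ * A * V := by
    rw [hm, Matrix.conjTranspose_mul, Matrix.conjTranspose_mul, Matrix.conjTranspose_conjTranspose,
      hA, mul_assoc]
  have e : (A * (V * E * Vᴴ) * (A * (V' * E' * V'ᴴ))).trace = (E * m * (E' * mᴴ)).trace := by
    calc (A * (V * E * Vᴴ) * (A * (V' * E' * V'ᴴ))).trace
        = ((A * V) * (E * (Vᴴ * A * V') * E' * V'ᴴ)).trace := by congr 1; noncomm_ring
      _ = ((E * (Vᴴ * A * V') * E' * V'ᴴ) * (A * V)).trace := Matrix.trace_mul_comm _ _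
      _ = (E * m * (E' * mᴴ)).trace := by
          rw [hmH, ← hm]
          congr 1; noncomm_ring
  rw [e]
  unfold Matrix.trace
  apply Finset.sum_congr rfl
  intro k _
  rw [Matrix.diag_apply, Matrix.mul_apply]
  apply Finset.sum_congr rfl
  intro j _
  rw [hE, hE', Matrix.diagonal_mul, Matrix.diagonal_mul, Matrix.conjTranspose_apply,
    Complex.star_def]
  have h1 : ((‖m k j‖ ^ 2 : ℝ) : ℂ) = m k j * (starRingEnd ℂ) (m k j) := by
    rw [Complex.mul_conj, Complex.normSq_eq_norm_sq]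
  rw [h1]
  ring

theorem syb_ker_le_one (l w : ℝ) : ker l w ≤ 1 := by
  unfold ker
  apply inv_le_one_of_one_le₀
  nlinarith [sq_nonneg (w * l)]

theorem integrableOn_abs_ker (l : ℝ) : IntegrableOn (fun w => |l| * ker l w) (Ioi 0) := by
  by_cases hl : l = 0
  · simp [hl]
  · exact (integrableOn_ker hl).const_mul _

theorem syb_resolvent {Z Z' A : Matrix κ κ ℂ} (hZ : IsUnit Z) (hZ' : IsUnit Z') (s : ℂ)
    (h : Z' = Z + s • A) : Z⁻¹ - Z'⁻¹ = s • (Z⁻¹ * A * Z'⁻¹) := by
  have h1 : Z⁻¹ * Z = 1 := Matrix.nonsing_inv_mul _ ((Matrix.isUnit_iff_isUnit_det _).1 hZ)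
  have h2 : Z' * Z'⁻¹ = 1 := Matrix.mul_nonsing_inv _ ((Matrix.isUnit_iff_isUnit_det _).1 hZ')
  calc Z⁻¹ - Z'⁻¹ = Z⁻¹ * (Z' * Z'⁻¹) - (Z⁻¹ * Z) * Z'⁻¹ := by rw [h1, h2]; simp
    _ = Z⁻¹ * (Z' - Z) * Z'⁻¹ := by noncomm_ring
    _ = s • (Z⁻¹ * A * Z'⁻¹) := by
        rw [h, add_sub_cancel_left, Matrix.mul_smul, Matrix.smul_mul]

/-- the Lipschitz bound -/
theorem syb_lip (h : SPair A D) (c y y' : ℝ) (hy : 0 ≤ y) (hy' : 0 ≤ y') :
    |sy A D y c - sy A D y' c| ≤ 2 * ((Aᴴ * A).trace).re * |y - y'| := by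
  have hN := syb_posDef h hy
  have hN' := syb_posDef h hy'
  have hJ := Wc_herm h c
  have hA : A.IsHermitian := h.posDef.isHermitian
  obtain ⟨V, W, l, hF⟩ := exists_frame hN hJ
  obtain ⟨V', W', l', hF'⟩ := exists_frame hN' hJ
  have hi : IntegrableOn (syf A D y c) (Ioi 0) := by
    have := hF.integrable_im hA
    simpa only [← syf_eq] using this
  have hi' : IntegrableOn (syf A D y' c) (Ioi 0) := by
    have := hF'.integrable_im hA
    simpa only [← syf_eq] using this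
  have e1 : sy A D y c - sy A D y' c =
      (2 / Real.pi) * ∫ w in Ioi (0 : ℝ), (syf A D y c w - syf A D y' c w) := by
    rw [sy_eq, sy_eq, integral_sub hi hi']
    ring
  set m : κ → κ → ℝ := fun k j => ‖(Vᴴ * A * V') k j‖ ^ 2 with hm
  have hm0 : ∀ k j, 0 ≤ m k j := fun k j => by positivity
  -- pointwise
  have e2 : ∀ w ∈ Ioi (0 : ℝ), |syf A D y c w - syf A D y' c w| ≤
      |y - y'| * ∑ k, ∑ j, m k j * (|l k| * ker (l k) w + |l' j| * ker (l' j) w) := by
    intro w hw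
    have hw0 : (0 : ℝ) < w := hw
    have h1 := syb_resolvent (A := A) (hF.isUnitZ w) (hF'.isUnitZ w) ((y' - y : ℝ) : ℂ) (by
      unfold Zm
      push_cast
      rw [sub_smul]
      abel)
    have h2 : (A * (Zm (1 + (y : ℂ) • A) (Wc A D c) w)⁻¹).trace -
        (A * (Zm (1 + (y' : ℂ) • A) (Wc A D c) w)⁻¹).trace = ((y' - y : ℝ) : ℂ) *
        (A * (Zm (1 + (y : ℂ) • A) (Wc A D c) w)⁻¹ *
          (A * (Zm (1 + (y' : ℂ) • A) (Wc A D c) w)⁻¹)).trace := by
      rw [← Matrix.trace_sub, ← mul_sub, h1, Matrix.mul_smul, Matrix.trace_smul, smul_eq_mul]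
      congr 2
      noncomm_ring
    have h3 : syf A D y c w - syf A D y' c w = -(1 / w) * ((y' - y) *
        ((A * (Zm (1 + (y : ℂ) • A) (Wc A D c) w)⁻¹ *
          (A * (Zm (1 + (y' : ℂ) • A) (Wc A D c) w)⁻¹)).trace).im) := by
      unfold syf
      rw [← mul_sub, ← Complex.sub_im, h2, Complex.im_ofReal_mul]
    rw [h3, syb_trace_two hF hF' hA w, Complex.im_sum]
    have h4 : ∀ k, (∑ j, ((‖(Vᴴ * A * V') k j‖ ^ 2 : ℝ) : ℂ) *
        ((1 + ((w * l k : ℝ) : ℂ) * Complex.I)⁻¹ * (1 + ((w * l' j : ℝ) : ℂ) * Complex.I)⁻¹)).im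
        = -w * ∑ j, m k j * ((l k + l' j) * (ker (l k) w * ker (l' j) w)) := by
      intro k
      rw [Complex.im_sum, Finset.mul_sum]
      apply Finset.sum_congr rfl
      intro j _
      rw [Complex.im_ofReal_mul, syb_im_mul]
      simp only [hm, ker]
      ring
    simp only [h4]
    rw [← Finset.mul_sum]
    have h5 : -(1 / w) * ((y' - y) * (-w * ∑ k, ∑ j, m k j *
        ((l k + l' j) * (ker (l k) w * ker (l' j) w)))) =
        (y' - y) * ∑ k, ∑ j, m k j * ((l k + l' j) * (ker (l k) w * ker (l' j) w)) := by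
      field_simp
    rw [h5, abs_mul, abs_sub_comm y' y]
    apply mul_le_mul_of_nonneg_left _ (abs_nonneg _)
    refine (Finset.abs_sum_le_sum_abs _ _).trans ?_
    apply Finset.sum_le_sum
    intro k _
    refine (Finset.abs_sum_le_sum_abs _ _).trans ?_
    apply Finset.sum_le_sum
    intro j _
    rw [abs_mul, abs_of_nonneg (hm0 k j)]
    apply mul_le_mul_of_nonneg_left _ (hm0 k j)
    have k1 := ker_nonneg (l k) w
    have k2 := ker_nonneg (l' j) w
    have k3 := syb_ker_le_one (l k) w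
    have k4 := syb_ker_le_one (l' j) w
    rw [abs_mul, abs_of_nonneg (mul_nonneg k1 k2)]
    have k5 : |l k + l' j| ≤ |l k| + |l' j| := abs_add_le _ _
    have k6 := abs_nonneg (l k)
    have k7 := abs_nonneg (l' j)
    calc |l k + l' j| * (ker (l k) w * ker (l' j) w)
        ≤ (|l k| + |l' j|) * (ker (l k) w * ker (l' j) w) :=
          mul_le_mul_of_nonneg_right k5 (mul_nonneg k1 k2)
      _ = |l k| * ker (l k) w * ker (l' j) w + |l' j| * ker (l' j) w * ker (l k) w := by ring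
      _ ≤ |l k| * ker (l k) w + |l' j| * ker (l' j) w := by
          apply add_le_add
          · exact mul_le_of_le_one_right (mul_nonneg k6 k1) k4
          · exact mul_le_of_le_one_right (mul_nonneg k7 k2) k3
  -- the integral of the bound
  have hint : ∀ k j, IntegrableOn (fun w => m k j * (|l k| * ker (l k) w + |l' j| * ker (l' j) w))
      (Ioi 0) := fun k j => ((integrableOn_abs_ker _).add (integrableOn_abs_ker _)).const_mul _
  have hint2 : IntegrableOn (fun w => |y - y'| * ∑ k, ∑ j, m k j *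
      (|l k| * ker (l k) w + |l' j| * ker (l' j) w)) (Ioi 0) := by
    apply Integrable.const_mul
    apply integrable_finsetSum
    intro k _
    apply integrable_finsetSum
    intro j _
    exact hint k j
  have e3 : |∫ w in Ioi (0 : ℝ), (syf A D y c w - syf A D y' c w)| ≤
      |y - y'| * ∑ k, ∑ j, m k j * Real.pi := by
    refine (abs_integral_le_integral_abs).trans ?_
    refine (setIntegral_mono_on (hi.sub hi').abs hint2 measurableSet_Ioi e2).trans ?_
    rw [integral_const_mul]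
    apply mul_le_mul_of_nonneg_left _ (abs_nonneg _)
    rw [integral_finsetSum _ fun k _ => integrable_finsetSum _ fun j _ => hint k j]
    apply Finset.sum_le_sum
    intro k _
    rw [integral_finsetSum _ fun j _ => hint k j]
    apply Finset.sum_le_sum
    intro j _
    rw [integral_const_mul]
    apply mul_le_mul_of_nonneg_left _ (hm0 k j)
    rw [integral_add (integrableOn_abs_ker _) (integrableOn_abs_ker _)]
    have h6 := integral_abs_mul_ker_le (l k)
    have h7 := integral_abs_mul_ker_le (l' j)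
    linarith
  -- the sum of squares
  have e4 : ∑ k, ∑ j, m k j ≤ ((Aᴴ * A).trace).re := by
    have h1 : ((∑ k, ∑ j, m k j : ℝ) : ℂ) =
        (A * (1 + (y' : ℂ) • A)⁻¹ * A * (1 + (y : ℂ) • A)⁻¹).trace := by
      have h2 : (A * (1 + (y' : ℂ) • A)⁻¹ * A * (1 + (y : ℂ) • A)⁻¹).trace =
          ((Vᴴ * A * V') * (Vᴴ * A * V')ᴴ).trace := by
        rw [hF.invN, hF'.invN, Matrix.conjTranspose_mul, Matrix.conjTranspose_mul,
          Matrix.conjTranspose_conjTranspose, hA]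
        calc (A * (V' * V'ᴴ) * A * (V * Vᴴ)).trace
            = ((A * V' * V'ᴴ * A * V) * Vᴴ).trace := by congr 1; noncomm_ring
          _ = (Vᴴ * (A * V' * V'ᴴ * A * V)).trace := Matrix.trace_mul_comm _ _
          _ = _ := by congr 1; noncomm_ring
      rw [h2]
      unfold Matrix.trace
      push_cast
      apply Finset.sum_congr rfl
      intro k _
      rw [Matrix.diag_apply, Matrix.mul_apply]
      apply Finset.sum_congr rfl
      intro j _
      rw [Matrix.conjTranspose_apply, Complex.star_def, Complex.mul_conj,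
        Complex.normSq_eq_norm_sq]
    have h3 : ∑ k, ∑ j, m k j = ((A * (1 + (y' : ℂ) • A)⁻¹ * A * (1 + (y : ℂ) • A)⁻¹).trace).re := by
      rw [← h1, Complex.ofReal_re]
    rw [h3]
    have hP : (A * (1 + (y' : ℂ) • A)⁻¹ * A).PosSemidef := by
      have := hN'.inv.posSemidef.mul_mul_conjTranspose_same A
      rwa [hA] at this
    have h4 := trace_mul_inv_le one_pos (syb_one_le h hy) hP
    have h5 := trace_mul_inv_le one_pos (syb_one_le h hy')
      (Matrix.posSemidef_conjTranspose_mul_self A)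
    rw [inv_one, one_mul] at h4 h5
    refine h4.trans ?_
    have h6 : (A * (1 + (y' : ℂ) • A)⁻¹ * A).trace = (Aᴴ * A * (1 + (y' : ℂ) • A)⁻¹).trace := by
      rw [hA]
      calc (A * (1 + (y' : ℂ) • A)⁻¹ * A).trace = (A * (A * (1 + (y' : ℂ) • A)⁻¹)).trace :=
            Matrix.trace_mul_comm _ _
        _ = _ := by congr 1; noncomm_ring
    rw [h6]
    exact h5
  rw [e1, abs_mul]
  have hp : |2 / Real.pi| = 2 / Real.pi := abs_of_pos (by positivity)
  rw [hp]
  have e5 : |y - y'| * ∑ k, ∑ j, m k j * Real.pi ≤ |y - y'| * (((Aᴴ * A).trace).re * Real.pi) := by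
    apply mul_le_mul_of_nonneg_left _ (abs_nonneg _)
    simp only [← Finset.sum_mul]
    exact mul_le_mul_of_nonneg_right e4 Real.pi_pos.le
  calc 2 / Real.pi * |∫ w in Ioi (0 : ℝ), (syf A D y c w - syf A D y' c w)|
      ≤ 2 / Real.pi * (|y - y'| * (((Aᴴ * A).trace).re * Real.pi)) :=
        mul_le_mul_of_nonneg_left (e3.trans e5) (by positivity)
    _ = 2 * ((Aᴴ * A).trace).re * |y - y'| := by
        have := Real.pi_ne_zero
        field_simp

end

/-- measurability -/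
theorem syb_meas (A D : Matrix κ κ ℂ) :
    StronglyMeasurable (fun x : ℝ × ℝ => sy A D x.2 x.1) := by
  have h1 : Measurable (fun x : (ℝ × ℝ) × ℝ => syf A D x.1.2 x.1.1 x.2) := by
    unfold syf
    apply Measurable.mul
    · exact (measurable_snd.const_div 1).neg
    · apply Complex.measurable_im.comp
      apply measurable_trace_inv continuous_const
      unfold Zm Wc
      apply continuous_matrix
      intro i j
      simp only [Matrix.add_apply, Matrix.smul_apply, Matrix.sub_apply, smul_eq_mul]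
      fun_prop
  have h2 := (h1.stronglyMeasurable).integral_prod_right' (ν := volume.restrict (Ioi (0 : ℝ)))
  have e : (fun x : ℝ × ℝ => sy A D x.2 x.1) =
      fun x => (2 / Real.pi) * ∫ w in Ioi (0 : ℝ), syf A D x.2 x.1 w := by
    funext x
    exact sy_eq _ _ _ _
  rw [e]
  exact h2.const_mul _

/-- SYB: the text of `SYBStmt` -/
theorem syb : ∀ (κ : Type) [Fintype κ] [DecidableEq κ] (A D : Matrix κ κ ℂ), SPair A D →
    ∃ K : ℝ, 0 ≤ K ∧
      (∀ c ∈ Icc (-1 : ℝ) 1, ∀ y : ℝ, 0 ≤ y → |sy A D y c| ≤ K / (1 + y)) ∧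
      (∀ c ∈ Icc (-1 : ℝ) 1, ∀ y y' : ℝ, 0 ≤ y → 0 ≤ y' →
        |sy A D y c - sy A D y' c| ≤ K * |y - y'|) ∧
      AEStronglyMeasurable (fun x : ℝ × ℝ => sy A D x.2 x.1)
        ((volume.restrict (Icc (-1) 1)).prod (volume.restrict (Ioi 0))) ∧
      AEStronglyMeasurable (fun c : ℝ => sy A D 0 c) (volume.restrict (Icc (-1) 1)) := by
  intro κ _ _ A D h
  obtain ⟨K, hK, h1⟩ := syb_bound h
  set T : ℝ := ((Aᴴ * A).trace).re with hT
  have hT0 : 0 ≤ T := by
    have := trace_mul_nonneg (ι := κ) (Matrix.posSemidef_conjTranspose_mul_self A)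
      Matrix.PosSemidef.one
    simpa [hT] using this
  refine ⟨K + 2 * T, by positivity, ?_, ?_, ?_, ?_⟩
  · intro c hc y hy
    refine (h1 c hc y hy).trans ?_
    apply div_le_div_of_nonneg_right _ (by linarith)
    linarith
  · intro c hc y y' hy hy'
    refine (syb_lip h c y y' hy hy').trans ?_
    apply mul_le_mul_of_nonneg_right _ (abs_nonneg _)
    linarith
  · exact (syb_meas A D).aestronglyMeasurable
  · exact ((syb_meas A D).comp_measurable (g := fun c : ℝ => (c, (0 : ℝ)))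
      (by fun_prop)).aestronglyMeasurable

end Pool.Agent.A1W
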